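import Pool.Agent.H651.SJ.Jump

set_option autoImplicit false

/-!
# Incomparable pairs for strong jump traceability reducibility below a c.e. set

If `E` is c.e. and not strongly jump traceable, then there are c.e. sets `A`, `B`, both Turing
reducible to `E`, with `A` not `≤_SJT B` and `B` not `≤_SJT A`. This is the assertion of the
question, in full.

How the definitions match the problem file:
* `chr A` is the characteristic function of the set `A`, used as an oracle; `TLe A B` is Turing
  reducibility (through Mathlib's `TuringReducible`); `CE A` is Mathlib's `REPred`; `CEIn B W` says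
  that `W` is the domain of a function which is partial recursive in `B`.
* `IsJump J` says that each `J X` is a universal `X`-partial computable function: it is partial
  recursive in `X`, and each partial function recursive in `X` is `J X ∘ g` for a computable `g`.
  The theorem holds for every such `J` (hence for whatever fixed choice the reader makes), and its
  first part says that there is one.
* `IsOrder z h` says that `h` is computable, nondecreasing, unbounded, with values at least `z`.
  In the literature orders have positive values, this is `z = 1`. If the value `0` is allowed,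
  `z = 0`, no set is `≤_SJT` any set and the assertion is trivial; the theorem covers both.
* `SJTLe z J A B` is `A ≤_SJT B`.

Proof: the helper files `Pool.Agent.H651.SJ.*`. A finite injury construction along the true stages
of an enumeration of `E`. For each requirement a follower `t` for the box `⟨instance, x⟩` is
appointed when `J E x` seems to converge at stage `t`; it is confirmed when the opponent's trace
takes `t`; it enters its set when `E` changes below the least element enumerated at stage `t`.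
If the requirement never wins, the values of `J E x` at confirmed followers form a c.e. trace of
`J E` which obeys the bound, contradicting that `E` is not strongly jump traceable.
-/

namespace Pool.Agent.Results.MP_377195_lc.SJTIncomparablePairs

open Nat.Partrec (Code)

open Classical in
/-- The characteristic function of the set `A`, as an oracle. -/
noncomputable def chr (A : Set ℕ) : ℕ →. ℕ := fun n => Part.some (if n ∈ A then 1 else 0)

/-- `A ≤_T B`. -/
def TLe (A B : Set ℕ) : Prop := TuringReducible (chr A) (chr B)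

/-- `A` is computably enumerable. -/
def CE (A : Set ℕ) : Prop := REPred fun n => n ∈ A

/-- `W` is computably enumerable relative to `B`: it is the domain of a function that is partial
recursive in `B`. -/
def CEIn (B W : Set ℕ) : Prop :=
  ∃ φ : ℕ →. ℕ, TuringReducible φ (chr B) ∧ ∀ n, n ∈ W ↔ (φ n).Dom

/-- Each `J X` is a universal `X`-partial computable function. -/
def IsJump (J : Set ℕ → ℕ →. ℕ) : Prop :=
  ∀ X, TuringReducible (J X) (chr X) ∧
    ∀ ψ : ℕ →. ℕ, TuringReducible ψ (chr X) → ∃ g : ℕ → ℕ, Computable g ∧ ∀ n, ψ n = J X (g n)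

/-- `h` is an order function with values at least `z`: computable, nondecreasing, unbounded. -/
def IsOrder (z : ℕ) (h : ℕ → ℕ) : Prop :=
  Computable h ∧ Monotone h ∧ (∀ k, ∃ n, k ≤ h n) ∧ ∀ n, z ≤ h n

/-- `A ≤_SJT B`: for each order `h` there is a trace `(T n)`, uniformly c.e. relative to `B`, with
`T n` of size at most `h n`, such that `J A n ∈ T n` whenever `J A n` is defined. -/
def SJTLe (z : ℕ) (J : Set ℕ → ℕ →. ℕ) (A B : Set ℕ) : Prop :=
  ∀ h, IsOrder z h → ∃ T : ℕ → Set ℕ, CEIn B {p | p.unpair.2 ∈ T p.unpair.1} ∧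
    (∀ n, (T n).encard ≤ h n) ∧ ∀ n, ∀ v ∈ J A n, v ∈ T n

open Pool.Agent.H651.SJ
open Pool.Agent.Helper227 (pre S1 chi recIn_graph recIn_of_graph)

/-! ### Translations -/

theorem chr_of_bool (X : ℕ → Bool) : chr {n | X n = true} = chi X := by
  classical
  funext n
  unfold chr chi
  congr 1
  cases h : X n <;> simp [h]

theorem chr_eq (A : Set ℕ) : ∃ X : ℕ → Bool, chr A = chi X ∧ ∀ n, X n = true ↔ n ∈ A := by
  classical
  refine ⟨fun n => decide (n ∈ A), ?_, fun n => by simp⟩
  rw [← chr_of_bool]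
  congr 1
  ext n
  simp

/-- there are universal jump functions -/
theorem exists_isJump : ∃ J, IsJump J := by
  classical
  refine ⟨fun A => JJ fun n => decide (n ∈ A), fun A => ?_⟩
  have hA : chr A = chi fun n => decide (n ∈ A) := by
    rw [← chr_of_bool]
    congr 1
    ext n
    simp
  rw [hA]
  refine ⟨RecursiveIn.iff_nat.2 (JJ_rec _), fun ψ hψ => ?_⟩
  obtain ⟨e, he⟩ := JJ_univ (RecursiveIn.iff_nat.1 hψ)
  exact ⟨fun n => Nat.pair e n, (Primrec₂.natPair.comp (Primrec.const e) Primrec.id).to_comp, he⟩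

theorem ceIn_empty_of_re {p : ℕ → Prop} (hp : REPred p) : CEIn ∅ {n | p n} := by
  refine ⟨fun n => Part.assert (p n) fun _ => Part.some 0, ?_, fun n => ?_⟩
  · have h1 : Partrec fun n => (Part.assert (p n) fun _ => Part.some ()).map fun _ => (0 : ℕ) :=
      hp.map (Computable.const 0).to₂
    have h2 : Partrec fun n => Part.assert (p n) fun _ => (Part.some 0 : Part ℕ) :=
      h1.of_eq fun n => by
        ext a
        simp [Part.assert, Part.mem_map_iff]
    exact h2.turingReducible
  · simp [Part.assert]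

/-! ### The literal reading -/

theorem not_zero {J : Set ℕ → ℕ →. ℕ} (hJ : IsJump J) (A B : Set ℕ) : ¬ SJTLe 0 J A B := by
  intro h
  obtain ⟨g, -, hg⟩ := (hJ A).2 (fun _ => Part.some 0)
    (RecursiveIn.iff_nat.2 Nat.RecursiveIn.zero)
  have ho : IsOrder 0 fun n => n - g 0 := by
    refine ⟨?_, ?_, fun k => ⟨k + g 0, ?_⟩, fun n => Nat.zero_le _⟩
    · exact (Primrec.nat_sub.comp Primrec.id (Primrec.const (g 0))).to_comp
    · exact fun a b hab => Nat.sub_le_sub_right hab _
    · exact (Nat.add_sub_cancel k (g 0)).ge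
  obtain ⟨T, -, hT, hv⟩ := h _ ho
  have h1 : (0 : ℕ) ∈ T (g 0) := hv _ _ (by rw [← hg 0]; exact Part.mem_some _)
  have h2 := hT (g 0)
  simp only [Nat.sub_self, Nat.cast_zero, nonpos_iff_eq_zero, Set.encard_eq_zero] at h2
  rw [h2] at h1
  exact h1

/-! ### The main part -/

variable {P : Par}

/-- the `j`-th set of the construction -/
def Cj (P : Par) (j : ℕ) : Set ℕ := {y | CC P (run P) j y}

theorem chr_Cj (j : ℕ) : chr (Cj P j) = chi (CB P (run P) j) := by
  rw [← chr_of_bool]
  congr 1
  ext y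
  exact CB_iff.symm

theorem Cj_not (hP : P.Prim) {ψ : ℕ →. ℕ} (hψ : Computes P ψ)
    (hI : ∀ I, ∃ x m, I < P.hh x ∧ m ∈ ψ x ∧ m ∉ VV P (run P) I x)
    {J : Set ℕ → ℕ →. ℕ} (hJ : IsJump J) {j : ℕ} (hj : j ≤ 1) :
    ¬ SJTLe 1 J (Cj P j) (Cj P (1 - j)) := by
  intro hS
  have hu : ∀ k, ∃ x, k < P.hh x := fun k => P.hh_unb (k + 1)
  -- the function which gives the least appointed number outside the set
  have hG := Gam_rec hP j
  rw [← chr_Cj] at hG
  obtain ⟨g, hg, hgJ⟩ := (hJ (Cj P j)).2 _ (RecursiveIn.iff_nat.2 hG)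
  have ho : IsOrder 1 (hord P.hh g) :=
    ⟨hord_computable hP.hh hg P.hh_mono hu, hord_mono _ _, hord_unb P.hh_mono hu,
      hord_pos _ _⟩
  obtain ⟨T, ⟨φ, hφ, hφT⟩, hTb, hT⟩ := hS _ ho
  -- the index of the trace
  rw [chr_Cj] at hφ
  obtain ⟨G, hG1, -, eG⟩ := recIn_graph (RecursiveIn.iff_nat.1 hφ)
  have hH : S1 fun z : List Bool × ℕ × ℕ => ∃ m, G (z.1, Nat.pair (g z.2.1) z.2.2, m) := by
    refine S1.ex ?_
    exact hG1.comp_computable
      (f := fun z : (List Bool × ℕ × ℕ) × ℕ => (z.1.1, Nat.pair (g z.1.2.1) z.1.2.2, z.2))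
      ((Computable.fst.comp Computable.fst).pair ((Primrec₂.natPair.to_comp.comp
        (hg.comp (Computable.fst.comp (Computable.snd.comp Computable.fst)))
        (Computable.snd.comp (Computable.snd.comp Computable.fst))).pair Computable.snd))
  obtain ⟨e, he⟩ := exists_index hH.re
  -- apply the satisfaction lemma
  obtain ⟨n, t, h1, h2, h3, h4, h5, h6⟩ := sat (isRun_run P) hψ hI (2 * e + j)
  have hj2 : (2 * e + j) % 2 = j := by omega
  rw [hj2] at h3 h5
  have hTT : TT P (run P) n = T (g n) := by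
    ext v
    have e1 : v ∈ T (g n) ↔ (φ (Nat.pair (g n) v)).Dom := by
      rw [← hφT]
      simp
    rw [e1, Part.dom_iff_mem]
    unfold TT
    rw [h1, hj2, show (2 * e + j) / 2 = e by omega]
    constructor
    · rintro ⟨b, s, hW⟩
      obtain ⟨m, hm⟩ := (he (pre (CB P (run P) (1 - j)) b, n, v)).2 ⟨s, hW⟩
      exact ⟨m, (eG _ _).2 ⟨b, hm⟩⟩
    · rintro ⟨m, hm⟩
      obtain ⟨b, hb⟩ := (eG _ _).1 hm
      obtain ⟨s, hs⟩ := (he (pre (CB P (run P) (1 - j)) b, n, v)).1 ⟨m, hb⟩
      exact ⟨b, s, hs⟩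
  have ht : t ∈ T (g n) := by
    refine hT _ _ ?_
    rw [← hgJ, mem_ofRel Gam_unique]
    refine ⟨h4, ?_, fun t' ht' hcon => ?_⟩
    · rw [← Bool.not_eq_true, CB_iff]
      exact h3
    · have h7 := h5 t' hcon.1 ht'.ne
      rw [← CB_iff, hcon.2] at h7
      exact absurd h7 (by decide)
  rw [hTT] at h6
  refine h6 ht ((hTb (g n)).trans ?_)
  exact_mod_cast hord_g h2

theorem main {J : Set ℕ → ℕ →. ℕ} (hJ : IsJump J) {E : Set ℕ} (hE : CE E)
    (hS : ¬ SJTLe 1 J E ∅) : ∃ A B : Set ℕ, CE A ∧ CE B ∧ TLe A E ∧ TLe B E ∧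
      ¬ SJTLe 1 J A B ∧ ¬ SJTLe 1 J B A := by
  classical
  unfold SJTLe at hS
  push Not at hS
  obtain ⟨h, ⟨hh, hm, hun, hpos⟩, hno⟩ := hS
  obtain ⟨c, hc⟩ := Code.exists_code.1 (Partrec.nat_iff.1 hh.partrec)
  have hc' : ∀ z, c.eval z = Part.some (h z) := fun z => by rw [hc]; rfl
  obtain ⟨a, ha⟩ := exists_index hE
  obtain ⟨X, hX, hXE⟩ := chr_eq E
  have hJE := (hJ E).1
  rw [hX] at hJE
  obtain ⟨G, ⟨q, hq, hqm, hqe⟩, -, eG⟩ := recIn_graph (RecursiveIn.iff_nat.1 hJE)
  let P : Par :=
    { En := fun s y => W s a y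
      q := q
      hh := slow c
      En_mono := fun hst hs => W_mono hst hs
      En_bd := fun {s y} hs => by
        obtain ⟨w, hw⟩ := Option.isSome_iff_exists.1 hs
        exact Code.evaln_bound (Option.mem_def.2 hw)
      hh_pos := slow_pos c
      hh_mono := slow_mono c
      hh_unb := slow_unb hc' hun }
  have hEX : EE P = X := by
    funext y
    rw [Bool.eq_iff_iff, EE_iff, hXE]
    exact (ha y).symm
  have hψ : Computes P (J E) := by
    refine ⟨hqm, fun x m => ?_⟩
    rw [hEX, eG]
    exact exists_congr fun w => hqe _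
  have hP : P.Prim :=
    { En := W_prim Primrec.fst (Primrec.const a) Primrec.snd
      q := hq
      hh := slow_prim c }
  have hI : ∀ I, ∃ x m, I < P.hh x ∧ m ∈ J E x ∧ m ∉ VV P (run P) I x := by
    intro I
    by_contra hcon
    push Not at hcon
    have hu : ∀ k, ∃ x, k < P.hh x := fun k => P.hh_unb (k + 1)
    have hb : ∀ x, ({v | (I < P.hh x ∧ v ∈ VV P (run P) I x) ∨
        (P.hh x ≤ I ∧ v ∈ J E x)} : Set ℕ).encard ≤ h x := by
      intro x
      have hle : P.hh x ≤ h x := slow_le hc' hm hpos x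
      have hle' : ((P.hh x : ℕ) : ℕ∞) ≤ ((h x : ℕ) : ℕ∞) := by exact_mod_cast hle
      refine le_trans ?_ hle'
      rcases Nat.lt_or_ge I (P.hh x) with h1 | h1
      · refine le_trans (Set.encard_le_encard ?_) (VV_bound (isRun_run P) I x)
        rintro v (⟨-, h2⟩ | ⟨h2, -⟩)
        · exact h2
        · omega
      · have h3 : (1 : ℕ∞) ≤ ((P.hh x : ℕ) : ℕ∞) := by exact_mod_cast P.hh_pos x
        refine le_trans ?_ h3
        rw [Set.encard_le_one_iff]
        rintro v w (⟨h4, -⟩ | ⟨-, h4⟩) (⟨h5, -⟩ | ⟨-, h5⟩)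
        · omega
        · omega
        · omega
        · exact Part.mem_unique h4 h5
    obtain ⟨n, v, hv, hv'⟩ := hno (fun x => {v | (I < P.hh x ∧ v ∈ VV P (run P) I x) ∨
      (P.hh x ≤ I ∧ v ∈ J E x)}) (ceIn_empty_of_re (VT_S1 hP hu I (J E)).re) hb
    apply hv'
    rcases Nat.lt_or_ge I (P.hh n) with h1 | h1
    · exact Or.inl ⟨h1, hcon n v h1 hv⟩
    · exact Or.inr ⟨h1, hv⟩
  have hred : ∀ j, TLe (Cj P j) E := fun j => by
    unfold TLe
    rw [chr_Cj, hX, ← hEX]
    exact RecursiveIn.iff_nat.2 (CC_red hP j)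
  exact ⟨Cj P 0, Cj P 1, (CC_S1 hP 0).re, (CC_S1 hP 1).re, hred 0, hred 1,
    Cj_not hP hψ hI hJ (Nat.zero_le 1), Cj_not hP hψ hI hJ le_rfl⟩

/-- There are universal jump functions, and for each choice `J` of them: whenever `E` is a c.e. set
with `E` not `≤_SJT ∅`, there are c.e. sets `A`, `B`, both Turing reducible to `E`, with
`A` not `≤_SJT B` and `B` not `≤_SJT A`. -/
theorem result :
    (∃ J, IsJump J) ∧
    ∀ z ≤ 1, ∀ J, IsJump J → ∀ E : Set ℕ, CE E → ¬ SJTLe z J E ∅ →
      ∃ A B : Set ℕ, CE A ∧ CE B ∧ TLe A E ∧ TLe B E ∧ ¬ SJTLe z J A B ∧ ¬ SJTLe z J B A := by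
  refine ⟨exists_isJump, fun z hz J hJ E hE hS => ?_⟩
  rcases Nat.le_one_iff_eq_zero_or_eq_one.1 hz with rfl | rfl
  · exact ⟨E, E, hE, hE, .refl _, .refl _, not_zero hJ _ _, not_zero hJ _ _⟩
  · exact main hJ hE hS

end Pool.Agent.Results.MP_377195_lc.SJTIncomparablePairs
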